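import Pool.Agent.H10x.HA.Core

/-!
A colouring which is eventually constant along every chain and codes an enumerable set.
-/

namespace Pool.Agent.H10x.HA

open Encodable Pool.Agent.Helper446 Pool.Agent.Helper446.Defs Pool.Agent.Helper446.Oracle
open Pool.Agent.Y545.HM

section

variable (q : ℕ → ℕ → Bool)

/-- `x` lies below all the digits of `n` -/
def Lo (n x : ℕ) : Prop := ∀ e, e < n → (e ∉ su n ∨ x < e)

open Classical in
/-- number of elements enumerated before `s` which lie below the digits of `n` -/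
noncomputable def kp (n s : ℕ) : ℕ :=
  ((Finset.range n).filter fun x => Lo n x ∧ Ks q s x).card

open Classical in
/-- number of different values at the digits of `n` -/
noncomputable def im (n : ℕ) : ℕ :=
  ((Finset.range (n + 1)).filter fun v => ∃ s, s < n ∧ (s ∈ su n ∧ kp q n s = v)).card

/-- its parity -/
noncomputable def pc (n : ℕ) : Fin 2 := ⟨im q n % 2, Nat.mod_lt _ (by norm_num)⟩

variable {q}
variable {A : Set ℕ}

theorem dp_lo {α : Type*} [Primcodable α] {f g : α → ℕ} (hf : Computable f)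
    (hg : Computable g) : DP A fun a => Lo (f a) (g a) := by
  unfold Lo
  refine DP.all_lt (p := fun a e => e ∉ su (f a) ∨ g a < e) ?_ hf
  exact DP.or (dp_su (by fun_prop) (by fun_prop)).not (dp_lt (by fun_prop) (by fun_prop))

theorem gr_kp (hq : Gr A fun p : ℕ × ℕ => q p.1 p.2) : Gr A fun p : ℕ × ℕ => kp q p.1 p.2 := by
  classical
  have h1 := gr_count (A := A) (p := fun (a : ℕ × ℕ) x => Lo a.1 x ∧ Ks q a.2 x)
    (f := fun a : ℕ × ℕ => a.1) (DP.and (dp_lo (by fun_prop) (by fun_prop))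
      (dp_ks hq (by fun_prop) (by fun_prop))) (by fun_prop)
  refine h1.of_eq fun a => ?_
  unfold kp
  congr

theorem gr_im (hq : Gr A fun p : ℕ × ℕ => q p.1 p.2) : Gr A (im q) := by
  classical
  have h2 : DP A fun x : ℕ × ℕ => ∃ s, s < x.1 ∧ (s ∈ su x.1 ∧ kp q x.1 s = x.2) := by
    refine DP.ex_lt (p := fun (x : ℕ × ℕ) s => s ∈ su x.1 ∧ kp q x.1 s = x.2) ?_ (by fun_prop)
    refine DP.and (dp_su (by fun_prop) (by fun_prop)) ?_
    refine DP.gr (p := fun u : ℕ × ℕ => u.1 = u.2)
      (f := fun y : (ℕ × ℕ) × ℕ => (kp q y.1.1 y.2, y.1.2)) (dp_eq (by fun_prop) (by fun_prop)) ?_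
    exact ((gr_kp hq).pre (g := fun y : (ℕ × ℕ) × ℕ => (y.1.1, y.2)) (by fun_prop)).pair
      (Gr.of_comp (by fun_prop))
  have h1 := gr_count (A := A) (p := fun (n : ℕ) v => ∃ s, s < n ∧ (s ∈ su n ∧ kp q n s = v))
    (f := fun n : ℕ => n + 1) h2 (by fun_prop)
  refine h1.of_eq fun a => ?_
  unfold im
  congr

theorem gr_pc (hq : Gr A fun p : ℕ × ℕ => q p.1 p.2) : Gr A (pc q) := by
  refine Pool.Agent.Y545.HM.St.gr_fin.1 ?_
  have hm : Computable fun v : ℕ => v % 2 :=
    (Primrec.nat_mod.comp Primrec.id (Primrec.const 2)).to_comp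
  exact Gr.post hm (gr_im hq)

open Classical in
/-- the number of elements below `m` enumerated before `s` -/
noncomputable def ka (q : ℕ → ℕ → Bool) (m s : ℕ) : ℕ :=
  ((Finset.range m).filter fun x => Ks q s x).card

theorem ka_le (m s : ℕ) : ka q m s ≤ m := by
  classical
  unfold ka
  exact (Finset.card_filter_le _ _).trans (by simp)

theorem kp_eq {n m : ℕ} (hm : ∀ x, Lo n x ↔ x < m) (hmn : m ≤ n) (s : ℕ) :
    kp q n s = ka q m s := by
  classical
  unfold kp ka
  congr 1
  ext x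
  simp only [Finset.mem_filter, Finset.mem_range, hm]
  constructor
  · rintro ⟨_, h2, h3⟩
    exact ⟨h2, h3⟩
  · rintro ⟨h2, h3⟩
    exact ⟨by omega, h2, h3⟩

theorem im_eq {n m : ℕ} (hm : ∀ x, Lo n x ↔ x < m) (hmn : m ≤ n) :
    im q n = ((su n).image (ka q m)).card := by
  classical
  unfold im
  congr 1
  ext v
  simp only [Finset.mem_filter, Finset.mem_range, Finset.mem_image, kp_eq hm hmn]
  constructor
  · rintro ⟨_, s, _, h1, h2⟩
    exact ⟨s, h1, h2⟩
  · rintro ⟨s, h1, rfl⟩
    have h2 := ka_le (q := q) m s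
    exact ⟨by omega, s, lt_of_mem_su h1, h1, rfl⟩

theorem lo_iff {n : ℕ} (hn : (su n).Nonempty) (x : ℕ) : Lo n x ↔ x < (su n).min' hn := by
  constructor
  · intro h
    have h1 := (su n).min'_mem hn
    rcases h _ (lt_of_mem_su h1) with h2 | h2
    · exact absurd h1 h2
    · exact h2
  · intro h e _
    by_cases he : e ∈ su n
    · exact Or.inr (lt_of_lt_of_le h ((su n).min'_le e he))
    · exact Or.inl he

theorem min_le_self {n : ℕ} (hn : (su n).Nonempty) : (su n).min' hn ≤ n :=
  (lt_of_mem_su ((su n).min'_mem hn)).le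

theorem exists_argmin (m : ℕ → ℕ) : ∃ N, ∀ i, m N ≤ m i := by
  obtain ⟨N, hN⟩ : ∃ N, m N = sInf (Set.range m) := Nat.sInf_mem (Set.range_nonempty m)
  exact ⟨N, fun i => hN ▸ Nat.sInf_le ⟨i, rfl⟩⟩

/-- The colouring is eventually constant along chains. -/
theorem conv_pc : Conv Sub (pc q) := by
  classical
  intro x hx
  have hne : ∀ i, (su (x i)).Nonempty := fun i => su_nonempty (hx i).1
  have hsub1 : ∀ i, su (x i) ⊆ su (x (i + 1)) := fun i => sub_iff.1 (hx i).2
  have hsub : ∀ i j, i ≤ j → su (x i) ⊆ su (x j) := by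
    intro i j hij
    induction j, hij using Nat.le_induction with
    | base => exact Finset.Subset.refl _
    | succ j _ ih => exact ih.trans (hsub1 j)
  let m : ℕ → ℕ := fun i => (su (x i)).min' (hne i)
  obtain ⟨N, hN⟩ := exists_argmin m
  have hm : ∀ i, N ≤ i → m i = m N := fun i hi =>
    le_antisymm (Finset.min'_le _ _ (hsub N i hi ((su (x N)).min'_mem (hne N)))) (hN i)
  have h1 : ∀ i, N ≤ i → im q (x i) = ((su (x i)).image (ka q (m N))).card := by
    intro i hi
    rw [← hm i hi]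
    exact im_eq (lo_iff (hne i)) (min_le_self (hne i))
  have h2 : ∀ i, ((su (x i)).image (ka q (m N))).card ≤ m N + 1 := by
    intro i
    have h3 : (su (x i)).image (ka q (m N)) ⊆ Finset.range (m N + 1) := by
      intro v hv
      obtain ⟨s, -, rfl⟩ := Finset.mem_image.1 hv
      exact Finset.mem_range.2 (Nat.lt_succ_of_le (ka_le _ _))
    exact (Finset.card_le_card h3).trans (by simp)
  obtain ⟨N', hN'⟩ := exists_argmin fun i =>
    m N + 1 - ((su (x (N + i))).image (ka q (m N))).card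
  refine ⟨N + N', fun i hi => ?_⟩
  obtain ⟨j, rfl⟩ := Nat.exists_eq_add_of_le hi
  have h4 := hN' (N' + j)
  have h5 := h2 (N + (N' + j))
  have h6 := h2 (N + N')
  have h7 : ((su (x (N + N'))).image (ka q (m N))).card ≤
      ((su (x (N + (N' + j)))).image (ka q (m N))).card :=
    Finset.card_le_card (Finset.image_subset_image (hsub _ _ (by omega)))
  have h8 := h1 (N + N' + j) (by omega)
  have h9 := h1 (N + N') (by omega)
  have h10 : im q (x (N + N' + j)) = im q (x (N + N')) := by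
    rw [h8, h9, Nat.add_assoc]
    omega
  unfold pc
  exact Fin.ext (by simp only [h10])

theorem exists_bound (m : ℕ) : ∃ M, ∀ y, y < m → (∃ t, q y t = true) → Ks q M y := by
  induction m with
  | zero => exact ⟨0, fun y hy => absurd hy (Nat.not_lt_zero y)⟩
  | succ m ih =>
    obtain ⟨M, hM⟩ := ih
    by_cases h : ∃ t, q m t = true
    · obtain ⟨t, ht⟩ := h
      refine ⟨max M (t + 1), fun y hy hq => ?_⟩
      rcases Nat.lt_succ_iff_lt_or_eq.1 hy with h1 | rfl
      · exact (hM y h1 hq).mono (le_max_left _ _)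
      · exact ⟨t, lt_of_lt_of_le (Nat.lt_succ_self t) (le_max_right _ _), ht⟩
    · refine ⟨M, fun y hy hq => ?_⟩
      rcases Nat.lt_succ_iff_lt_or_eq.1 hy with h1 | rfl
      · exact hM y h1 hq
      · exact absurd hq h

section

variable {Y : Set ℕ} (hY : Sol (pc q) Y)

include hY

/-- Along a solution the enumeration is settled below the digits. -/
theorem settled {F : Finset ℕ} (hF : (F : Set ℕ) ⊆ Y) (hne : F.Nonempty) {x : ℕ}
    (hx : Lo (∑ x ∈ F, x) x) (hK : ∃ t, q x t = true) : Ks q (∑ x ∈ F, x) x := by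
  classical
  obtain ⟨hYi, hY0, j, hYc⟩ := hY
  have hn := sum_pos_of hY0 hF hne
  have hpc := hYc F hF hne
  set n := ∑ x ∈ F, x with hndef
  have hnn := su_nonempty hn
  set m := (su n).min' hnn with hmdef
  have hmn : m ≤ n := min_le_self hnn
  obtain ⟨M0, hM0⟩ := exists_bound (q := q) m
  obtain ⟨F', hF'1, hF'2, t, ht⟩ := exists_div hYi n (max n M0)
  set M := max n M0 with hM
  have hnM : n ≤ M := le_max_left _ _
  have hMM : M0 ≤ M := le_max_right _ _
  have hF'Y : (F' : Set ℕ) ⊆ Y := fun x hx => (hF'2 x hx).1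
  have ht0 : 0 < 2 ^ M * t := by
    have h1 := sum_pos_of hY0 hF'Y hF'1
    rwa [ht] at h1
  have hlt : n < 2 ^ M := lt_of_lt_of_le Nat.lt_two_pow_self
    (Nat.pow_le_pow_right (by norm_num) hnM)
  have hsum : ∑ x ∈ F ∪ F', x = n + 2 ^ M * t := by
    rw [union_sum fun x hx => (hF'2 x hx).2, ht]
  have hpc' := hYc (F ∪ F') (by
    rw [Finset.coe_union]
    exact Set.union_subset hF hF'Y) (hne.mono Finset.subset_union_left)
  rw [hsum] at hpc'
  have hsu : su (n + 2 ^ M * t) = su n ∪ su (2 ^ M * t) := su_add hlt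
  have hlo : ∀ y, Lo (n + 2 ^ M * t) y ↔ y < m := by
    intro y
    rw [← lo_iff hnn]
    constructor
    · intro h e he
      by_cases h1 : e ∈ su n
      · rcases h e (by omega) with h2 | h2
        · exact absurd (by rw [hsu]; exact Finset.mem_union_left _ h1) h2
        · exact Or.inr h2
      · exact Or.inl h1
    · intro h e he
      by_cases h1 : e ∈ su (n + 2 ^ M * t)
      · right
        rw [hsu] at h1
        rcases Finset.mem_union.1 h1 with h2 | h2
        · rcases h e (lt_of_mem_su h2) with h3 | h3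
          · exact absurd h2 h3
          · exact h3
        · have h3 := le_of_mem_su h2
          have h4 := (lo_iff hnn y).1 h
          omega
      · exact Or.inl h1
  have him : im q n = ((su n).image (ka q m)).card := im_eq (lo_iff hnn) hmn
  have him' : im q (n + 2 ^ M * t) = ((su n ∪ su (2 ^ M * t)).image (ka q m)).card := by
    rw [← hsu]
    exact im_eq hlo (by omega)
  have hset : ∀ s, M ≤ s → ka q m s = ka q m M := by
    intro s hs
    unfold ka
    congr 1
    ext y
    simp only [Finset.mem_filter, Finset.mem_range]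
    constructor
    · rintro ⟨h1, t, h2, h3⟩
      exact ⟨h1, (hM0 y h1 ⟨t, h3⟩).mono hMM⟩
    · rintro ⟨h1, h2⟩
      exact ⟨h1, h2.mono hs⟩
  have himg : (su n ∪ su (2 ^ M * t)).image (ka q m) =
      insert (ka q m M) ((su n).image (ka q m)) := by
    ext v
    simp only [Finset.mem_image, Finset.mem_union, Finset.mem_insert]
    constructor
    · rintro ⟨s, h1 | h1, rfl⟩
      · exact Or.inr ⟨s, h1, rfl⟩
      · exact Or.inl (hset s (le_of_mem_su h1))
    · rintro (rfl | ⟨s, h1, rfl⟩)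
      · obtain ⟨s, hs⟩ := su_nonempty ht0
        exact ⟨s, Or.inr hs, hset s (le_of_mem_su hs)⟩
      · exact ⟨s, Or.inl h1, rfl⟩
  have hmem : ka q m M ∈ (su n).image (ka q m) := by
    by_contra hcon
    rw [himg, Finset.card_insert_of_notMem hcon, ← him] at him'
    have h1 := congrArg Fin.val (hpc.trans hpc'.symm)
    simp only [pc, him'] at h1
    omega
  obtain ⟨s, hs1, hs2⟩ := Finset.mem_image.1 hmem
  have hsM : s < M := lt_of_lt_of_le (lt_of_mem_su hs1) hnM
  have hsub : (Finset.range m).filter (fun x => Ks q s x) ⊆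
      (Finset.range m).filter (fun x => Ks q M x) := by
    intro y hy
    simp only [Finset.mem_filter] at hy ⊢
    exact ⟨hy.1, hy.2.mono hsM.le⟩
  have heq := Finset.eq_of_subset_of_card_le hsub (by
    unfold ka at hs2
    exact hs2.ge)
  have hxm : x < m := (lo_iff hnn x).1 hx
  have h1 : x ∈ (Finset.range m).filter (fun x => Ks q M x) := by
    simp only [Finset.mem_filter, Finset.mem_range]
    exact ⟨hxm, (hM0 x hxm hK).mono hMM⟩
  rw [← heq] at h1
  exact (Finset.mem_filter.1 h1).2.mono (lt_of_mem_su hs1).le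

theorem re_not {B : Set ℕ} (hq : Gr B fun p : ℕ × ℕ => q p.1 p.2) (hB : Dec B Y) :
    REIn B fun x => ¬ ∃ t, q x t = true := by
  have h1 : REIn B fun x : ℕ => ∃ l : List ℕ, (l ≠ [] ∧ l.Nodup ∧ ∀ x ∈ l, x ∈ Y) ∧
      (∃ t, l.sum = 2 ^ (x + 1) * t) ∧ ¬ Ks q l.sum x := by
    refine REIn.ex (S := fun (x : ℕ) (l : List ℕ) => (l ≠ [] ∧ l.Nodup ∧ ∀ x ∈ l, x ∈ Y) ∧
      (∃ t, l.sum = 2 ^ (x + 1) * t) ∧ ¬ Ks q l.sum x) ?_
    refine REIn.and (re_lst hB (f := fun x : ℕ × List ℕ => x.2) (by fun_prop))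
      (REIn.and ?_ (dp_ks hq (f := fun x : ℕ × List ℕ => x.2.sum) (g := fun x => x.1)
        (by fun_prop) (by fun_prop)).2)
    exact REIn.of_re (RE.exN (p := fun (x : ℕ × List ℕ) (t : ℕ) =>
      x.2.sum = 2 ^ (x.1 + 1) * t) (RE.eq (by fun_prop) (by fun_prop)))
  refine h1.of_eq fun x => ?_
  constructor
  · rintro ⟨l, ⟨h2, h3, h4⟩, ⟨t, ht⟩, h5⟩ hK
    have hs : ∑ x ∈ l.toFinset, x = l.sum := by
      have h6 := List.sum_toFinset (fun x : ℕ => x) h3
      rw [h6]
      simp
    have h7 := settled hY (F := l.toFinset) (fun x hx => h4 x (List.mem_toFinset.1 hx))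
      ((List.toFinset_nonempty_iff l).2 h2) (x := x) ?_ hK
    · rw [hs] at h7
      exact h5 h7
    · rw [hs, ht]
      intro e _
      by_cases he : e ∈ su (2 ^ (x + 1) * t)
      · exact Or.inr (le_of_mem_su he)
      · exact Or.inl he
  · intro hK
    obtain ⟨F, hF1, hF2, t, ht⟩ := exists_div hY.1 0 (x + 1)
    refine ⟨F.toList, ⟨?_, F.nodup_toList, fun x hx => (hF2 x (Finset.mem_toList.1 hx)).1⟩,
      ⟨t, ?_⟩, fun h2 => hK ?_⟩
    · intro h1
      rw [Finset.toList_eq_nil] at h1
      exact hF1.ne_empty h1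
    · rw [← ht, Finset.sum_toList]
    · obtain ⟨n, -, h3⟩ := h2
      exact ⟨n, h3⟩

end

end

/-- Colourings which are eventually constant along chains can code the jump. -/
theorem code {A S : Set ℕ} (hS : REIn A (· ∈ S)) : ∃ c : ℕ → Fin 2, Gr A c ∧ Conv Sub c ∧
    ∀ B Y, Dec B A → Dec B Y → Sol c Y → Dec B S := by
  obtain ⟨q, hq, hq2⟩ := exists_q hS
  refine ⟨pc q, gr_pc hq, conv_pc, fun B Y hBA hBY hY => ⟨re_lift hS hBA, ?_⟩⟩
  exact (re_not hY (hq.lift hBA) hBY).of_eq fun x => not_congr (hq2 x).symm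

end Pool.Agent.H10x.HA
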