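import Pool.Agent.Y545.HM.St

/-!
Colourings with few changes of colour along chains of sets of binary digits.
-/

namespace Pool.Agent.H10x.HA

open Encodable Pool.Agent.Helper446 Pool.Agent.Helper446.Defs Pool.Agent.Helper446.Oracle
open Pool.Agent.Y545.HM

/-- Every binary digit one of `m` is a binary digit one of `n`. -/
def Sub (m n : ℕ) : Prop := ∀ i, m.testBit i = true → n.testBit i = true

/-- `n` is an end extension of `m`: only digits above those of `m` are added. -/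
def End (m n : ℕ) : Prop := ∃ t r, m < 2 ^ t ∧ n = m + 2 ^ t * r

/-- There is a chain of `r + 1` positive numbers below `2 ^ n` for the relation `R` along which
the colour changes `r` times. -/
def Changes (R : ℕ → ℕ → Prop) {k : ℕ} (c : ℕ → Fin k) (n r : ℕ) : Prop :=
  ∃ x : ℕ → ℕ, (∀ i, i ≤ r → 0 < x i ∧ x i < 2 ^ n) ∧
    ∀ i, i < r → R (x i) (x (i + 1)) ∧ c (x i) ≠ c (x (i + 1))

/-- At most `w n` changes of colour along the chains of numbers below `2 ^ n`. -/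
def Few (R : ℕ → ℕ → Prop) (w : ℕ → ℕ) {k : ℕ} (c : ℕ → Fin k) : Prop :=
  ∀ n r, Changes R c n r → r ≤ w n

/-- The colour is eventually constant along every infinite chain of positive numbers. -/
def Conv (R : ℕ → ℕ → Prop) {k : ℕ} (c : ℕ → Fin k) : Prop :=
  ∀ x : ℕ → ℕ, (∀ i, 0 < x i ∧ R (x i) (x (i + 1))) → ∃ N, ∀ i, N ≤ i → c (x i) = c (x N)

variable {A : Set ℕ} {k : ℕ} {c : ℕ → Fin k} {w : ℕ → ℕ}

theorem End.sub {m n : ℕ} (h : End m n) : Sub m n := by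
  obtain ⟨t, r, h1, rfl⟩ := h
  intro i hi
  have h2 := mem_su.2 hi
  have h3 : i ∈ su (m + 2 ^ t * r) := by
    rw [su_add h1]
    exact Finset.mem_union_left _ h2
  exact mem_su.1 h3

theorem End.refl (m : ℕ) : End m m := ⟨m, 0, Nat.lt_two_pow_self, by simp⟩

theorem End.le {m n : ℕ} (h : End m n) : m ≤ n := by
  obtain ⟨t, r, -, rfl⟩ := h
  exact Nat.le_add_right _ _

theorem End.dvd {m x y : ℕ} (h : End x y) (hx : 0 < x) (hd : 2 ^ m ∣ x) : 2 ^ m ∣ y := by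
  obtain ⟨t, r, h1, rfl⟩ := h
  have h2 : 2 ^ m < 2 ^ t := lt_of_le_of_lt (Nat.le_of_dvd hx hd) h1
  have h3 : m ≤ t := ((Nat.pow_lt_pow_iff_right (by norm_num)).1 h2).le
  exact (Nat.dvd_add_right hd).2 (Dvd.dvd.mul_right (pow_dvd_pow 2 h3) r)

theorem sub_iff {m n : ℕ} : Sub m n ↔ su m ⊆ su n := by
  constructor
  · intro h i hi
    exact mem_su.2 (h i (mem_su.1 hi))
  · intro h i hi
    exact mem_su.1 (h (mem_su.2 hi))

theorem Few.to_end (h : Few Sub w c) : Few End w c := by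
  rintro n r ⟨x, h1, h2⟩
  exact h n r ⟨x, h1, fun i hi => ⟨(h2 i hi).1.sub, (h2 i hi).2⟩⟩

theorem Conv.to_end (h : Conv Sub c) : Conv End c :=
  fun x hx => h x fun i => ⟨(hx i).1, (hx i).2.sub⟩

theorem re_end {α : Type*} [Primcodable α] {f g : α → ℕ} (hf : Computable f)
    (hg : Computable g) : REPred fun x => End (f x) (g x) := by
  unfold End
  refine RE.exN (p := fun (x : α) (t : ℕ) => ∃ r, f x < 2 ^ t ∧ g x = f x + 2 ^ t * r) ?_
  refine RE.exN (p := fun (x : α × ℕ) (r : ℕ) => f x.1 < 2 ^ x.2 ∧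
    g x.1 = f x.1 + 2 ^ x.2 * r) ?_
  exact RE.and (RE.lt (by fun_prop) (by fun_prop)) (RE.eq (by fun_prop) (by fun_prop))

/-- `y` is the top of a chain of end extensions with `r` changes of colour, all multiples of
`2 ^ m`. -/
def Top (c : ℕ → Fin k) (m : ℕ) : ℕ → ℕ → Prop
  | 0, y => 0 < y ∧ ∃ t, y = 2 ^ m * t
  | r + 1, y => ∃ x, Top c m r x ∧ End x y ∧ c x ≠ c y

theorem re_ne {α : Type*} [Primcodable α] (hc : Gr A c) {f g : α → ℕ} (hf : Computable f)
    (hg : Computable g) : REIn A fun x => c (f x) ≠ c (g x) := by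
  refine re_gr (S := fun u : Fin k × Fin k => u.1 ≠ u.2) (f := fun x : α => (c (f x), c (g x)))
    (REIn.of_re (RE.ne (by fun_prop) (by fun_prop))) ?_
  exact (hc.pre hf).pair (hc.pre hg)

theorem re_top (hc : Gr A c) (r : ℕ) : REIn A fun x : ℕ × ℕ => Top c x.1 r x.2 := by
  induction r with
  | zero =>
    refine REIn.of_re (RE.and (RE.lt (by fun_prop) (by fun_prop)) ?_)
    exact RE.exN (p := fun (x : ℕ × ℕ) (t : ℕ) => x.2 = 2 ^ x.1 * t)
      (RE.eq (by fun_prop) (by fun_prop))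
  | succ r ih =>
    refine REIn.ex (S := fun (x : ℕ × ℕ) (z : ℕ) => Top c x.1 r z ∧ End z x.2 ∧ c z ≠ c x.2) ?_
    refine REIn.and (REIn.comp ih (f := fun x : (ℕ × ℕ) × ℕ => (x.1.1, x.2)) (by fun_prop))
      (REIn.and (REIn.of_re (re_end (by fun_prop) (by fun_prop)))
        (re_ne hc (by fun_prop) (by fun_prop)))

theorem top_dvd {m r y : ℕ} (h : Top c m r y) : 0 < y ∧ 2 ^ m ∣ y := by
  induction r generalizing y with
  | zero => exact ⟨h.1, h.2⟩
  | succ r ih =>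
    obtain ⟨x, h1, h2, -⟩ := h
    obtain ⟨h3, h4⟩ := ih h1
    exact ⟨lt_of_lt_of_le h3 h2.le, h2.dvd h3 h4⟩

theorem top_mono {m m' r y : ℕ} (hm : m ≤ m') (h : Top c m' r y) : Top c m r y := by
  induction r generalizing y with
  | zero => exact ⟨h.1, (pow_dvd_pow 2 hm).trans h.2⟩
  | succ r ih =>
    obtain ⟨x, h1, h2, h3⟩ := h
    exact ⟨x, ih h1, h2, h3⟩

theorem changes_of_top {n r y : ℕ} (h : Top c 0 r y) (hy : y < 2 ^ n) :
    ∃ x : ℕ → ℕ, x r = y ∧ (∀ i, i ≤ r → 0 < x i ∧ x i < 2 ^ n) ∧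
    ∀ i, i < r → End (x i) (x (i + 1)) ∧ c (x i) ≠ c (x (i + 1)) := by
  induction r generalizing y with
  | zero =>
    refine ⟨fun _ => y, rfl, fun i _ => ⟨h.1, hy⟩, fun i hi => absurd hi (Nat.not_lt_zero i)⟩
  | succ r ih =>
    obtain ⟨x, h1, h2, h3⟩ := h
    obtain ⟨z, hz, hz1, hz2⟩ := ih h1 (lt_of_le_of_lt h2.le hy)
    refine ⟨fun i => if i ≤ r then z i else y, by simp, fun i hi => ?_, fun i hi => ?_⟩
    · by_cases h5 : i ≤ r
      · simp only [h5, if_true]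
        exact hz1 i h5
      · simp only [h5, if_false]
        exact ⟨lt_of_lt_of_le (top_dvd h1).1 h2.le, hy⟩
    · by_cases h5 : i + 1 ≤ r
      · have h6 : i ≤ r := by omega
        simp only [h5, h6, if_true]
        exact hz2 i (by omega)
      · have h6 : i = r := by omega
        subst h6
        simp only [h5, if_false, le_refl, if_true, hz]
        exact ⟨h2, h3⟩

theorem few_top (hw : Few End w c) {n r y : ℕ} (h : Top c 0 r y) (hy : y < 2 ^ n) : r ≤ w n := by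
  obtain ⟨x, -, h1, h2⟩ := changes_of_top h hy
  exact hw n r ⟨x, h1, h2⟩

/-- A computable sequence of numbers all of whose end extensions have the same colour. -/
theorem seq {f : ℕ → ℕ} (hf : Gr A f) {i : Fin k}
    (h : ∀ m, 0 < f m ∧ 2 ^ m ∣ f m ∧ ∀ z, End (f m) z → c z = i) :
    ∃ X : Set ℕ, Sol c X ∧ Dec A X := by
  let nx : ℕ → ℕ := fun a => a + f a
  have hnx : Gr A nx := (Gr.post (g := fun p : ℕ × ℕ => p.1 + p.2) (by fun_prop)
    ((Gr.of_comp Computable.id).pair hf)).of_eq fun a => rfl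
  let av : ℕ → ℕ := fun n => nx^[n] 0
  have hav : Gr A av := Gr.iter hnx 0
  have hav_succ : ∀ n, av (n + 1) = av n + f (av n) := fun n =>
    Function.iterate_succ_apply' nx n 0
  let s : ℕ → ℕ := fun n => f (av n)
  have hs : Gr A s := hf.comp hav
  have hsp : ∀ n, 0 < s n := fun n => (h (av n)).1
  have hsd : ∀ n, 2 ^ av n ∣ s n := fun n => (h (av n)).2.1
  have hsa : ∀ n, s n ≤ av (n + 1) := fun n => by
    rw [hav_succ]
    exact Nat.le_add_left _ _
  have havmono : Monotone av := monotone_nat_of_le_succ fun n => by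
    rw [hav_succ]; omega
  have hmono : StrictMono s := by
    refine strictMono_nat_of_lt_succ fun n => ?_
    have h1 := Nat.le_of_dvd (hsp (n + 1)) (hsd (n + 1))
    have h2 : av (n + 1) < 2 ^ av (n + 1) := Nat.lt_two_pow_self
    have h3 := hsa n
    omega
  refine ⟨Set.range s, ⟨Set.infinite_range_of_injective hmono.injective, ?_, i, ?_⟩,
    range_dec hs hmono⟩
  · rintro ⟨n, hn⟩
    have := hsp n
    omega
  · intro F hF hne
    rw [← Set.image_univ] at hF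
    obtain ⟨G, -, rfl⟩ := Finset.subset_set_image_iff.1 hF
    have hGne : G.Nonempty := Finset.image_nonempty.1 hne
    rw [Finset.sum_image (fun a _ b _ h => hmono.injective h)]
    have hj := G.min'_mem hGne
    rw [← Finset.add_sum_erase _ _ hj]
    have h1 : 2 ^ av (G.min' hGne + 1) ∣ ∑ x ∈ G.erase (G.min' hGne), s x := by
      refine Finset.dvd_sum fun x hx => ?_
      have h2 := G.min'_le x (Finset.mem_of_mem_erase hx)
      have h3 := Finset.ne_of_mem_erase hx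
      exact (pow_dvd_pow 2 (havmono (by omega))).trans (hsd x)
    obtain ⟨q, hq⟩ := h1
    refine (h (av (G.min' hGne))).2.2 _ ⟨av (G.min' hGne + 1), q, ?_, by rw [hq]⟩
    exact lt_of_le_of_lt (hsa _) Nat.lt_two_pow_self

theorem exists_colour {P : ℕ → ℕ → Prop} (hP : ∀ m m' y, m ≤ m' → P m' y → P m y)
    (h : ∀ m, ∃ y, P m y) (c : ℕ → Fin k) : ∃ i, ∀ m, ∃ y, P m y ∧ c y = i := by
  by_contra hcon
  push Not at hcon
  choose g hg using hcon
  obtain ⟨y, hy⟩ := h (Finset.univ.sup g)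
  exact hg (c y) y (hP _ _ y (Finset.le_sup (f := g) (Finset.mem_univ (c y))) hy) rfl

/-- A bound for the number of changes: solutions computable from the colouring. -/
theorem small_core (hc : Gr A c) {r0 : ℕ} (h : ∀ y, ¬ Top c 0 r0 y) :
    ∃ X : Set ℕ, Sol c X ∧ Dec A X := by
  classical
  have hex : ∃ r, ¬ ∀ m, ∃ y, Top c m r y := ⟨r0, fun h1 => by
    obtain ⟨y, hy⟩ := h1 0
    exact h y hy⟩
  have h1 := Nat.find_spec hex
  have h0 : Nat.find hex ≠ 0 := by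
    intro h2
    rw [h2] at h1
    exact h1 fun m => ⟨2 ^ m, by positivity, 1, (mul_one _).symm⟩
  obtain ⟨r, hr⟩ := Nat.exists_eq_succ_of_ne_zero h0
  have h2 : ∀ m, ∃ y, Top c m r y := by
    have h3 := Nat.find_min hex (m := r) (by omega)
    rwa [not_not] at h3
  rw [hr] at h1
  push Not at h1
  obtain ⟨m1, hm1⟩ := h1
  obtain ⟨i, hi⟩ := exists_colour (P := fun m y => Top c m r y)
    (fun m m' y hm hy => top_mono hm hy) h2 c
  have hR : REIn A fun x : ℕ × ℕ => Top c (x.1 + m1) r x.2 ∧ c x.2 = i := by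
    refine REIn.and (REIn.comp (re_top hc r) (f := fun x : ℕ × ℕ => (x.1 + m1, x.2))
      (by fun_prop)) ?_
    exact REIn.comp hc (f := fun x : ℕ × ℕ => (x.2, i)) (by fun_prop)
  obtain ⟨f, hf, hfR⟩ := choice (R := fun m y => Top c (m + m1) r y ∧ c y = i) hR
    fun m => hi (m + m1)
  refine seq hf (i := i) fun m => ?_
  obtain ⟨h3, h4⟩ := hfR m
  obtain ⟨h5, h6⟩ := top_dvd h3
  refine ⟨h5, (pow_dvd_pow 2 (Nat.le_add_right m m1)).trans h6, fun z hz => ?_⟩
  by_contra hcon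
  refine hm1 z (top_mono (Nat.le_add_left m1 m) ⟨f m, h3, hz, ?_⟩)
  rw [h4]
  exact fun h7 => hcon h7.symm

theorem top_iff {r y : ℕ} : Top c 0 r y ↔ ∃ l : List ℕ, (∃ u, l[0]? = some u ∧ 0 < u) ∧
    (∀ i < r, ∃ u : ℕ × ℕ, l[i]? = some u.1 ∧ l[i + 1]? = some u.2 ∧ End u.1 u.2 ∧
      c u.1 ≠ c u.2) ∧ l[r]? = some y := by
  constructor
  · intro h
    obtain ⟨x, h1, h2, h3⟩ := changes_of_top h (n := y) Nat.lt_two_pow_self
    refine ⟨(List.range (r + 1)).map x, ⟨x 0, ?_, (h2 0 (Nat.zero_le r)).1⟩, fun i hi =>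
      ⟨(x i, x (i + 1)), ?_, ?_, h3 i hi⟩, ?_⟩
    · rw [List.getElem?_map, List.getElem?_range (by omega)]; rfl
    · rw [List.getElem?_map, List.getElem?_range (by omega)]; rfl
    · rw [List.getElem?_map, List.getElem?_range (by omega)]; rfl
    · rw [List.getElem?_map, List.getElem?_range (by omega), ← h1]; rfl
  · rintro ⟨l, ⟨u, h1, h2⟩, h3, h4⟩
    have h5 : ∀ i ≤ r, ∀ v, l[i]? = some v → Top c 0 i v := by
      intro i
      induction i with
      | zero =>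
        intro _ v hv
        rw [h1] at hv
        rw [← Option.some.inj hv]
        exact ⟨h2, u, by simp⟩
      | succ i ih =>
        intro hi v hv
        obtain ⟨u, hu1, hu2, hu3, hu4⟩ := h3 i (by omega)
        rw [hv] at hu2
        rw [← Option.some.inj hu2] at hu3 hu4
        exact ⟨u.1, ih (by omega) _ hu1, hu3, hu4⟩
    exact h5 r le_rfl y h4

theorem re_top' (hc : Gr A c) : REIn A fun x : ℕ × ℕ => Top c 0 x.1 x.2 := by
  have h1 : REIn A fun x : ℕ × ℕ => ∃ l : List ℕ, (∃ u, l[0]? = some u ∧ 0 < u) ∧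
    (∀ i < x.1, ∃ u : ℕ × ℕ, l[i]? = some u.1 ∧ l[i + 1]? = some u.2 ∧ End u.1 u.2 ∧
      c u.1 ≠ c u.2) ∧ l[x.1]? = some x.2 := by
    refine REIn.ex (S := fun (x : ℕ × ℕ) (l : List ℕ) => (∃ u, l[0]? = some u ∧ 0 < u) ∧
      (∀ i < x.1, ∃ u : ℕ × ℕ, l[i]? = some u.1 ∧ l[i + 1]? = some u.2 ∧ End u.1 u.2 ∧
        c u.1 ≠ c u.2) ∧ l[x.1]? = some x.2) ?_
    refine REIn.and ?_ (REIn.and ?_ (REIn.of_re (RE.eq (by fun_prop) (by fun_prop))))
    · exact REIn.of_re (RE.exN (p := fun (x : (ℕ × ℕ) × List ℕ) (u : ℕ) =>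
        x.2[0]? = some u ∧ 0 < u) (RE.and (RE.eq (by fun_prop) (by fun_prop))
          (RE.lt (by fun_prop) (by fun_prop))))
    · refine REIn.all_lt (S := fun (x : (ℕ × ℕ) × List ℕ) (i : ℕ) =>
        ∃ u : ℕ × ℕ, x.2[i]? = some u.1 ∧ x.2[i + 1]? = some u.2 ∧ End u.1 u.2 ∧
          c u.1 ≠ c u.2) ?_ (by fun_prop)
      refine REIn.ex (S := fun (x : ((ℕ × ℕ) × List ℕ) × ℕ) (u : ℕ × ℕ) =>
        x.1.2[x.2]? = some u.1 ∧ x.1.2[x.2 + 1]? = some u.2 ∧ End u.1 u.2 ∧ c u.1 ≠ c u.2) ?_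
      refine REIn.and (REIn.of_re (RE.eq (by fun_prop) (by fun_prop)))
        (REIn.and (REIn.of_re (RE.eq (by fun_prop) (by fun_prop))) (REIn.and
          (REIn.of_re (re_end (by fun_prop) (by fun_prop))) ?_))
      exact re_ne hc (by fun_prop) (by fun_prop)
  exact h1.of_eq fun x => top_iff.symm

/-- Unboundedly many changes, at most `w n` below `2 ^ n`: an unbounded function computable from
the colouring lies below `w`. -/
theorem dom_of (hmono : Monotone w) (hc : Gr A c) (hw : Few End w c)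
    (h : ∀ r, ∃ y, Top c 0 r y) :
    ∃ w' : ℕ → ℕ, Gr A w' ∧ (∀ B, ∃ m, B ≤ w' m) ∧ ∀ m, w' m ≤ w m := by
  obtain ⟨u, hu, huR⟩ := choice (R := fun r y => Top c 0 (r + 1) y)
    (REIn.comp (re_top' hc) (f := fun x : ℕ × ℕ => (x.1 + 1, x.2)) (by fun_prop))
    fun r => h (r + 1)
  obtain ⟨g, hg1, hg2, hg3, hg4⟩ := exists_inv hu
  refine ⟨g, hg1, fun B => ?_, fun m => ?_⟩
  · obtain ⟨m, hm⟩ := hg3 B
    exact ⟨m, hm.ge⟩
  · rcases hn : g m with _ | n
    · exact Nat.zero_le _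
    · exact (few_top hw (huR n) Nat.lt_two_pow_self).trans (hmono (hg4 m n hn))

/-- Few changes, below a bound which dominates no unbounded computable function: solutions
computable from the colouring. -/
theorem small (hmono : Monotone w)
    (hnd : ¬ ∃ w' : ℕ → ℕ, Gr A w' ∧ (∀ B, ∃ m, B ≤ w' m) ∧ ∀ m, w' m ≤ w m)
    (hc : Gr A c) (hw : Few End w c) : ∃ X : Set ℕ, Sol c X ∧ Dec A X := by
  by_cases h : ∀ r, ∃ y, Top c 0 r y
  · exact absurd (dom_of hmono hc hw h) hnd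
  · push Not at h
    obtain ⟨r0, h⟩ := h
    exact small_core hc h

/-- Convergence along end extensions: stable numbers. -/
theorem exists_stable (hc : Conv End c) (m : ℕ) :
    ∃ y, (0 < y ∧ 2 ^ m ∣ y) ∧ ¬ ∃ z, End y z ∧ c z ≠ c y := by
  by_contra hcon
  push Not at hcon
  choose! g hg using hcon
  have h1 : ∀ i, 0 < g^[i] (2 ^ m) ∧ 2 ^ m ∣ g^[i] (2 ^ m) := by
    intro i
    induction i with
    | zero => exact ⟨Nat.two_pow_pos m, dvd_rfl⟩
    | succ i ih =>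
      rw [Function.iterate_succ_apply']
      obtain ⟨h2, -⟩ := hg _ ih
      exact ⟨lt_of_lt_of_le ih.1 h2.le, h2.dvd ih.1 ih.2⟩
  obtain ⟨N, hN⟩ := hc (fun i => g^[i] (2 ^ m)) fun i => ⟨(h1 i).1, by
    rw [Function.iterate_succ_apply']
    exact (hg _ (h1 i)).1⟩
  have h2 := hN (N + 1) (Nat.le_succ N)
  simp only [Function.iterate_succ_apply'] at h2
  exact (hg _ (h1 N)).2 h2

/-- Convergence: one jump is enough. -/
theorem upper1 (hc : Gr A c) (hv : Conv End c) :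
    ∃ S : Set ℕ, REIn A (· ∈ S) ∧ ∃ X : Set ℕ, Sol c X ∧ Dec (join A S) X := by
  obtain ⟨i, hi⟩ := exists_colour (P := fun m y => (0 < y ∧ 2 ^ m ∣ y) ∧
    ¬ ∃ z, End y z ∧ c z ≠ c y) (fun m m' y hm hy => ⟨⟨hy.1.1, (pow_dvd_pow 2 hm).trans hy.1.2⟩,
      hy.2⟩) (exists_stable hv) c
  refine ⟨{y | ∃ z, End y z ∧ c z ≠ c y}, ?_, ?_⟩
  · refine REIn.ex (S := fun (y z : ℕ) => End y z ∧ c z ≠ c y) ?_
    exact REIn.and (REIn.of_re (re_end (by fun_prop) (by fun_prop)))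
      (re_ne hc (by fun_prop) (by fun_prop))
  · have hR : REIn (join A {y | ∃ z, End y z ∧ c z ≠ c y}) fun x : ℕ × ℕ =>
        ((0 < x.2 ∧ 2 ^ x.1 ∣ x.2) ∧ ¬ ∃ z, End x.2 z ∧ c z ≠ c x.2) ∧ c x.2 = i := by
      refine REIn.and (REIn.and (REIn.and (REIn.of_re (RE.lt (by fun_prop) (by fun_prop))) ?_)
        ?_) ?_
      · exact REIn.of_re (RE.exN (p := fun (x : ℕ × ℕ) (t : ℕ) => x.2 = 2 ^ x.1 * t)
          (RE.eq (by fun_prop) (by fun_prop)))
      · exact REIn.comp (dec_right (A := A) (B := {y | ∃ z, End y z ∧ c z ≠ c y})).2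
          (f := fun x : ℕ × ℕ => x.2) (by fun_prop)
      · exact REIn.comp (hc.lift dec_left) (f := fun x : ℕ × ℕ => (x.2, i)) (by fun_prop)
    obtain ⟨f, hf, hfR⟩ := choice (R := fun m y => ((0 < y ∧ 2 ^ m ∣ y) ∧
      ¬ ∃ z, End y z ∧ c z ≠ c y) ∧ c y = i) hR hi
    refine seq hf (i := i) fun m => ?_
    obtain ⟨⟨h1, h2⟩, h3⟩ := hfR m
    refine ⟨h1.1, h1.2, fun z hz => ?_⟩
    by_contra hcon
    exact h2 ⟨z, hz, by rwa [h3]⟩

theorem exists_slow1 (hmono : Monotone w)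
    (hw : ∃ w' : ℕ → ℕ, Gr A w' ∧ (∀ B, ∃ m, B ≤ w' m) ∧ ∀ m, w' m ≤ w m) :
    ∃ h : ℕ → ℕ, Gr A h ∧ Monotone h ∧ (∀ j, ∃ m, h m = j) ∧ ∀ m, h m ≤ w m := by
  obtain ⟨w', hw1, hw2, hw3⟩ := hw
  have hR : REIn A fun x : ℕ × ℕ => x.1 + 1 ≤ w' x.2 := by
    refine re_gr (S := fun u : ℕ × ℕ => u.1 ≤ u.2) (f := fun x : ℕ × ℕ =>
      (x.1 + 1, w' x.2)) (REIn.of_re (RE.le (by fun_prop) (by fun_prop))) ?_
    exact (Gr.of_comp (by fun_prop)).pair (hw1.pre (g := fun x : ℕ × ℕ => x.2) (by fun_prop))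
  obtain ⟨u, hu, huR⟩ := choice (R := fun n m : ℕ => n + 1 ≤ w' m) hR (fun n => hw2 _)
  obtain ⟨h, hh1, hh2, hh3, hh4⟩ := exists_inv hu
  refine ⟨h, hh1, hh2, hh3, fun m => ?_⟩
  rcases hn : h m with _ | n
  · exact Nat.zero_le _
  · exact (huR n).trans ((hw3 _).trans (hmono (hh4 m n hn)))

theorem sub_ph {h : ℕ → ℕ} {m n : ℕ} (hmn : Sub m n) : Sub (ph h m) (ph h n) := by
  rw [sub_iff] at hmn ⊢
  unfold ph
  rw [su_cd, su_cd]
  exact Finset.image_subset_image hmn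

/-- Few changes after the digit map. -/
theorem few_comp (hmono : Monotone w) {h : ℕ → ℕ} (hh : ∀ m, h m ≤ w m) (c : ℕ → Fin k) :
    Few Sub w (c ∘ ph h) := by
  rintro n r ⟨x, h1, h2⟩
  have h3 : ∀ i, i ≤ r → i + 1 ≤ ((su (x i)).image h).card := by
    intro i
    induction i with
    | zero =>
      intro hi
      exact Finset.card_pos.2 ((su_nonempty (h1 0 hi).1).image h)
    | succ i ih =>
      intro hi
      refine lt_of_le_of_lt (ih (by omega)) (Finset.card_lt_card ?_)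
      refine lt_of_le_of_ne (Finset.image_subset_image (sub_iff.1 (h2 i (by omega)).1)) ?_
      intro h4
      refine (h2 i (by omega)).2 ?_
      show c (ph h (x i)) = c (ph h (x (i + 1)))
      unfold ph
      rw [h4]
  have h4 : (su (x r)).image h ⊆ Finset.range (w n + 1) := by
    intro j hj
    obtain ⟨i, hi, rfl⟩ := Finset.mem_image.1 hj
    have h5 := lt_of_mem_su_of_lt hi (h1 r le_rfl).2
    have h6 := hh i
    have h7 := hmono h5.le
    exact Finset.mem_range.2 (by omega)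
  have h5 := h3 r le_rfl
  have h6 := Finset.card_le_card h4
  rw [Finset.card_range] at h6
  omega

theorem conv_comp {h : ℕ → ℕ} (hv : Conv Sub c) : Conv Sub (c ∘ ph h) := by
  intro x hx
  exact hv (fun i => ph h (x i)) fun i => ⟨ph_pos (hx i).1, sub_ph (hx i).2⟩

/-- A bound above an unbounded computable function: full strength. -/
theorem large (hmono : Monotone w)
    (hw : ∃ w' : ℕ → ℕ, Gr A w' ∧ (∀ B, ∃ m, B ≤ w' m) ∧ ∀ m, w' m ≤ w m) :
    ∃ φ : ℕ → ℕ, Gr A φ ∧ (∀ n, 0 < n → 0 < φ n) ∧ ∀ (k : ℕ) (c : ℕ → Fin k),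
      Few Sub w (c ∘ φ) ∧ (Conv Sub c → Conv Sub (c ∘ φ)) ∧
      (∀ B Y, Dec B A → Dec B Y → Sol (c ∘ φ) Y → ∃ X : Set ℕ, Sol c X ∧ Dec B X) ∧
      ∀ B X, Dec B A → Dec B X → Sol c X → ∃ Y : Set ℕ, Sol (c ∘ φ) Y ∧ Dec B Y := by
  obtain ⟨h, hh1, hh2, hh3, hh4⟩ := exists_slow1 hmono hw
  refine ⟨ph h, gr_ph hh1, fun n hn => ph_pos hn, fun k c => ⟨few_comp hmono hh4 c, conv_comp,
    fun B Y hBA hBY hY => ?_, fun B X hBA hBX hX => ?_⟩⟩
  · refine transfer (hh1.lift hBA) hBY hh2 (fun j => ?_) hY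
    obtain ⟨m, hm⟩ := hh3 (j + 1)
    exact ⟨m, by omega⟩
  · exact transfer_back (hh1.lift hBA) hBX hh2 hh3 hX

end Pool.Agent.H10x.HA
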