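import Pool.Agent.H10x.HA.Code

/-!
The classification over `ω`-models.
-/

namespace Pool.Agent.H10x.HA

open Encodable Pool.Agent.Helper446 Pool.Agent.Helper446.Defs Pool.Agent.Helper446.Oracle
open Pool.Agent.Y545.HM

variable {I : Set (Set ℕ)} {w : ℕ → ℕ}

theorem code_slow {A S : Set ℕ} (hS : REIn A (· ∈ S)) (hmono : Monotone w)
    (hw : ∃ w' : ℕ → ℕ, Gr A w' ∧ (∀ B, ∃ m, B ≤ w' m) ∧ ∀ m, w' m ≤ w m) :
    ∃ c : ℕ → Fin 2, Gr A c ∧ Few Sub w c ∧ Conv Sub c ∧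
      ∀ B Y, Dec B A → Dec B Y → Sol c Y → Dec B S := by
  obtain ⟨c, hc1, hc2, hc3⟩ := code hS
  obtain ⟨φ, h1, -, h2⟩ := large hmono hw
  obtain ⟨h3, h4, h5, -⟩ := h2 2 c
  refine ⟨c ∘ φ, hc1.comp h1, h3, h4 hc2, fun B Y hBA hBY hY => ?_⟩
  obtain ⟨X, hX, hXd⟩ := h5 B Y hBA hBY hY
  exact hc3 B X hBA hXd hX

/-- The relation lies between end extension and inclusion. -/
def Between (R : ℕ → ℕ → Prop) : Prop := (∀ m n, End m n → R m n) ∧ ∀ m n, R m n → Sub m n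

theorem Few.of_sub {R : ℕ → ℕ → Prop} (hR : Between R) {k : ℕ} {c : ℕ → Fin k}
    (h : Few Sub w c) : Few R w c := by
  rintro n r ⟨x, h1, h2⟩
  exact h n r ⟨x, h1, fun i hi => ⟨hR.2 _ _ (h2 i hi).1, (h2 i hi).2⟩⟩

theorem Few.end_of {R : ℕ → ℕ → Prop} (hR : Between R) {k : ℕ} {c : ℕ → Fin k}
    (h : Few R w c) : Few End w c := by
  rintro n r ⟨x, h1, h2⟩
  exact h n r ⟨x, h1, fun i hi => ⟨hR.1 _ _ (h2 i hi).1, (h2 i hi).2⟩⟩

theorem Conv.of_sub {R : ℕ → ℕ → Prop} (hR : Between R) {k : ℕ} {c : ℕ → Fin k}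
    (h : Conv Sub c) : Conv R c :=
  fun x hx => h x fun i => ⟨(hx i).1, hR.2 _ _ (hx i).2⟩

theorem Conv.end_of {R : ℕ → ℕ → Prop} (hR : Between R) {k : ℕ} {c : ℕ → Fin k}
    (h : Conv R c) : Conv End c :=
  fun x hx => h x fun i => ⟨(hx i).1, hR.1 _ _ (hx i).2⟩

variable {R : ℕ → ℕ → Prop}

theorem idl_small1 (hR : Between R) (hI : Idl I) (hmono : Monotone w) (hw : ¬ Dom I w) :
    HTI I fun _ c => Few R w c := by
  rintro k c ⟨A, hA, hc⟩ hm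
  obtain ⟨X, hX, hXd⟩ := small hmono
    (fun ⟨w', h1, h2, h3⟩ => hw ⟨w', ⟨A, hA, h1⟩, h2, h3⟩) hc (hm.end_of hR)
  exact ⟨X, hI.2.1 A hA _ hXd, hX⟩

theorem idl_large1 (hR : Between R) (hI : Idl I) (hmono : Monotone w) (hw : Dom I w)
    (h : HTI I fun _ c => Few R w c) : HTI I fun _ _ => True := by
  obtain ⟨w', ⟨A, hA, hw1⟩, hw2, hw3⟩ := hw
  obtain ⟨φ, hφ, -, hφ2⟩ := large hmono ⟨w', hw1, hw2, hw3⟩
  rintro k c ⟨B, hB, hc⟩ -
  obtain ⟨hm, -, hY, -⟩ := hφ2 k c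
  have hAB := hI.2.2 A hA B hB
  obtain ⟨Y, hYI, hYs⟩ := h k (c ∘ φ) ⟨join A B, hAB,
    (hc.lift dec_right).comp (hφ.lift dec_left)⟩ (hm.of_sub hR)
  have hAY := hI.2.2 A hA Y hYI
  obtain ⟨X, hX, hXd⟩ := hY (join A Y) Y dec_left dec_right hYs
  exact ⟨X, hI.2.1 _ hAY _ hXd, hX⟩

/-- The classification by the number of changes. -/
theorem class_few (hR : Between R) (hI : Idl I) (hmono : Monotone w) :
    (HTI I fun _ c => Few R w c) ↔ (Dom I w → HTI I fun _ _ => True) := by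
  constructor
  · intro h hw
    exact idl_large1 hR hI hmono hw h
  · intro h
    by_cases hw : Dom I w
    · exact (h hw).mono fun _ _ _ => trivial
    · exact idl_small1 hR hI hmono hw

theorem idl_conv (hR : Between R) (hI : Idl I) (hJ : Jmp I) : HTI I fun _ c => Conv R c := by
  rintro k c ⟨A, hA, hc⟩ hv
  obtain ⟨S, hS, X, hX, hXd⟩ := upper1 hc (hv.end_of hR)
  exact ⟨X, hI.2.1 _ (hI.2.2 A hA S (hJ A hA S hS)) _ hXd, hX⟩

/-- The strength for convergent colourings. -/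
theorem class_conv (hR : Between R) (hI : Idl I) : (HTI I fun _ c => Conv R c) ↔ Jmp I := by
  refine ⟨fun h => ?_, idl_conv hR hI⟩
  intro A hA S hS
  obtain ⟨c, hc, hc2, hc3⟩ := code hS
  obtain ⟨Y, hY, hYs⟩ := h 2 c ⟨A, hA, hc⟩ (hc2.of_sub hR)
  exact hI.2.1 _ (hI.2.2 A hA Y hY) _ (hc3 (join A Y) Y dec_left dec_right hYs)

/-- Both restrictions. -/
theorem class_both (hR : Between R) (hI : Idl I) (hmono : Monotone w) :
    (HTI I fun _ c => Few R w c ∧ Conv R c) ↔ (Dom I w → Jmp I) := by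
  constructor
  · rintro h ⟨w', ⟨B, hB, hw1⟩, hw2, hw3⟩ A hA S hS
    have hAB := hI.2.2 A hA B hB
    obtain ⟨c, hc1, hc2, hc3, hc4⟩ := code_slow (A := join A B) (re_lift hS dec_left) hmono
      ⟨w', hw1.lift dec_right, hw2, hw3⟩
    obtain ⟨Y, hY, hYs⟩ := h 2 c ⟨_, hAB, hc1⟩ ⟨hc2.of_sub hR, hc3.of_sub hR⟩
    exact hI.2.1 _ (hI.2.2 _ hAB Y hY) _ (hc4 _ Y dec_left dec_right hYs)
  · intro h
    by_cases hw : Dom I w
    · exact (idl_conv hR hI (h hw)).mono fun k c hc => hc.2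
    · exact (idl_small1 hR hI hmono hw).mono fun k c hc => hc.1

end Pool.Agent.H10x.HA
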